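import Pool.Agent.Lib.BSDP.Def

/-!
Module A.Deg of MP_48b749_nt (positive proportion). The degree at infinity on `k(t)` as a predicate
`DegLE x n : x = 0 ∨ x.intDegree ≤ n`, and on the cubic algebra (`CuLE m u n`, `θ` of degree `2 m`).

PROOFS. `DegLE.add`: `RatFunc.intDegree_add_le` (or through `placeInfty`/`inftyValuation`);
`DegLE.mul`: `RatFunc.intDegree_mul`; `DegLE.cc`: `RatFunc.intDegree_polynomial`;
`DegLE.eq_zero`: a nonzero polynomial has `intDegree = natDegree ≥ 0`. `DegLE.det3`: expand with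
`Matrix.det_fin_three`. For `CuLE`: by cases from the formulas `Cu.mul_x/y/z`, with
`DegLE (cc A) (4 m)`, `DegLE (cc B) (6 m)`; `CuLE.th`: immediate.
`CuLE.norm`: the eight terms of `Cu.norm` have degree `≤ 3 n`.
-/

set_option autoImplicit false

open Polynomial

namespace Pool.Agent.BSDP

variable {k : Type} [Field k]

theorem DegLE.zero (n : ℤ) : DegLE (0 : RatFunc k) n := Or.inl rfl

theorem DegLE.mono {x : RatFunc k} {m n : ℤ} (h : DegLE x m) (hmn : m ≤ n) : DegLE x n :=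
  h.imp id fun h => h.trans hmn

theorem DegLE.add {x y : RatFunc k} {n : ℤ} (hx : DegLE x n) (hy : DegLE y n) :
    DegLE (x + y) n := by
  rcases hx with rfl | hx
  · rwa [zero_add]
  rcases hy with rfl | hy
  · rw [add_zero]
    exact Or.inr hx
  by_cases hy0 : y = 0
  · rw [hy0, add_zero]
    exact Or.inr hx
  by_cases h : x + y = 0
  · exact Or.inl h
  · exact Or.inr ((RatFunc.intDegree_add_le hy0 h).trans (max_le hx hy))

theorem DegLE.neg {x : RatFunc k} {n : ℤ} (hx : DegLE x n) : DegLE (-x) n := by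
  rcases hx with rfl | hx
  · exact Or.inl neg_zero
  · exact Or.inr (by rwa [RatFunc.intDegree_neg])

theorem DegLE.sub {x y : RatFunc k} {n : ℤ} (hx : DegLE x n) (hy : DegLE y n) :
    DegLE (x - y) n := by
  rw [sub_eq_add_neg]
  exact hx.add hy.neg

theorem DegLE.mul {x y : RatFunc k} {m n : ℤ} (hx : DegLE x m) (hy : DegLE y n) :
    DegLE (x * y) (m + n) := by
  by_cases hx0 : x = 0
  · exact Or.inl (by rw [hx0, zero_mul])
  by_cases hy0 : y = 0
  · exact Or.inl (by rw [hy0, mul_zero])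
  refine Or.inr ?_
  rw [RatFunc.intDegree_mul hx0 hy0]
  exact add_le_add (hx.resolve_left hx0) (hy.resolve_left hy0)

theorem DegLE.mul_iff {x y : RatFunc k} (hx : x ≠ 0) (n : ℤ) :
    DegLE (x * y) (x.intDegree + n) ↔ DegLE y n := by
  refine ⟨fun h => ?_, fun h => DegLE.mul (Or.inr le_rfl) h⟩
  by_cases hy0 : y = 0
  · exact Or.inl hy0
  have h1 := h.resolve_left (mul_ne_zero hx hy0)
  rw [RatFunc.intDegree_mul hx hy0] at h1
  exact Or.inr (by linarith)

theorem DegLE.sum3 {x y z : RatFunc k} {n : ℤ} (hx : DegLE x n) (hy : DegLE y n)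
    (hz : DegLE z n) : DegLE (x + y + z) n := (hx.add hy).add hz

theorem DegLE.cc_iff (p : k[X]) (n : ℤ) : DegLE (cc p) n ↔ p = 0 ∨ (p.natDegree : ℤ) ≤ n := by
  unfold DegLE
  rw [RatFunc.intDegree_polynomial,
    map_eq_zero_iff (algebraMap k[X] (RatFunc k)) (RatFunc.algebraMap_injective k)]

theorem DegLE.cc_nat (p : k[X]) (n : ℕ) : DegLE (cc p) n ↔ p.natDegree ≤ n := by
  rw [DegLE.cc_iff]
  constructor
  · rintro (rfl | h)
    · simp
    · exact_mod_cast h
  · intro h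
    exact Or.inr (by exact_mod_cast h)

theorem DegLE.const (c : k) : DegLE (cc (C c)) 0 := by
  rw [DegLE.cc_iff, natDegree_C]
  exact Or.inr le_rfl

/-- A polynomial of negative degree is zero. -/
theorem DegLE.eq_zero {x : RatFunc k} (hx : x ∈ polys k) {n : ℤ} (hn : n < 0)
    (h : DegLE x n) : x = 0 := by
  obtain ⟨p, rfl⟩ := hx
  rcases (DegLE.cc_iff p n).1 h with rfl | h
  · exact map_zero _
  · have : (0 : ℤ) ≤ p.natDegree := by positivity
    linarith

/-- A polynomial of degree `≤ 0` is a constant. -/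
theorem DegLE.eq_const {x : RatFunc k} (hx : x ∈ polys k) (h : DegLE x 0) :
    ∃ c : k, x = cc (C c) := by
  obtain ⟨p, rfl⟩ := hx
  have h1 : p.natDegree ≤ 0 := (DegLE.cc_nat p 0).1 (by exact_mod_cast h)
  obtain ⟨c, hc⟩ := natDegree_eq_zero.1 (Nat.le_zero.1 h1)
  exact ⟨c, by rw [hc]⟩

theorem DegLE.natCast (n : ℕ) : DegLE (n : RatFunc k) 0 := by
  have h : (n : RatFunc k) = cc (n : k[X]) := (map_natCast _ n).symm
  rw [h, DegLE.cc_iff, natDegree_natCast]
  exact Or.inr le_rfl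

private theorem degLE_mul {x y : RatFunc k} {m n p : ℤ} (hx : DegLE x m) (hy : DegLE y n)
    (h : m + n ≤ p) : DegLE (x * y) p := (hx.mul hy).mono h

private theorem degLE_sq {x : RatFunc k} {m p : ℤ} (hx : DegLE x m) (h : 2 * m ≤ p) :
    DegLE (x ^ 2) p := by
  rw [sq]
  exact degLE_mul hx hx (by linarith)

private theorem degLE_cube {x : RatFunc k} {m p : ℤ} (hx : DegLE x m) (h : 3 * m ≤ p) :
    DegLE (x ^ 3) p := by
  rw [pow_succ]
  exact degLE_mul (degLE_sq hx le_rfl) hx (by linarith)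

section cu

variable {m : ℕ} {A B : k[X]}

theorem CuLE.mono {u : LK A B} {n n' : ℤ} (h : CuLE m u n) (hn : n ≤ n') : CuLE m u n' :=
  ⟨h.1.mono hn, h.2.1.mono (by linarith), h.2.2.mono (by linarith)⟩

theorem CuLE.add {u v : LK A B} {n : ℤ} (hu : CuLE m u n) (hv : CuLE m v n) :
    CuLE m (u + v) n :=
  ⟨hu.1.add hv.1, hu.2.1.add hv.2.1, hu.2.2.add hv.2.2⟩

theorem CuLE.smul {c : RatFunc k} {u : LK A B} {l n : ℤ} (hc : DegLE c l) (hu : CuLE m u n) :
    CuLE m (c • u) (l + n) :=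
  ⟨hc.mul hu.1, degLE_mul hc hu.2.1 (by linarith), degLE_mul hc hu.2.2 (by linarith)⟩

theorem CuLE.mul (hA : A.natDegree ≤ 4 * m) (hB : B.natDegree ≤ 6 * m) {u v : LK A B} {n n' : ℤ}
    (hu : CuLE m u n) (hv : CuLE m v n') : CuLE m (u * v) (n + n') := by
  have ha : DegLE (cc A) (4 * m) := by exact_mod_cast (DegLE.cc_nat A (4 * m)).2 hA
  have hb : DegLE (cc B) (6 * m) := by exact_mod_cast (DegLE.cc_nat B (6 * m)).2 hB
  obtain ⟨h1, h2, h3⟩ := hu
  obtain ⟨g1, g2, g3⟩ := hv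
  refine ⟨?_, ?_, ?_⟩
  · rw [Cu.mul_x]
    refine DegLE.sub (h1.mul g1) (degLE_mul hb (DegLE.add (n := n + n' - 6 * m) ?_ ?_) ?_)
    · exact degLE_mul h2 g3 (by linarith)
    · exact degLE_mul h3 g2 (by linarith)
    · linarith
  · rw [Cu.mul_y]
    refine DegLE.sub (DegLE.sub (DegLE.add ?_ ?_)
      (degLE_mul ha (DegLE.add (n := n + n' - 6 * m) ?_ ?_) ?_))
      (degLE_mul hb (degLE_mul h3 g3 (le_refl _)) ?_)
    · exact degLE_mul h1 g2 (by linarith)
    · exact degLE_mul h2 g1 (by linarith)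
    · exact degLE_mul h2 g3 (by linarith)
    · exact degLE_mul h3 g2 (by linarith)
    · linarith
    · linarith
  · rw [Cu.mul_z]
    refine DegLE.sub (DegLE.add (DegLE.add ?_ ?_) ?_)
      (degLE_mul ha (degLE_mul h3 g3 (le_refl _)) ?_)
    · exact degLE_mul h1 g3 (by linarith)
    · exact degLE_mul h2 g2 (by linarith)
    · exact degLE_mul h3 g1 (by linarith)
    · linarith

theorem CuLE.norm (hA : A.natDegree ≤ 4 * m) (hB : B.natDegree ≤ 6 * m) {u : LK A B} {n : ℤ}
    (hu : CuLE m u n) : DegLE u.norm (3 * n) := by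
  have ha : DegLE (cc A) (4 * m) := by exact_mod_cast (DegLE.cc_nat A (4 * m)).2 hA
  have hb : DegLE (cc B) (6 * m) := by exact_mod_cast (DegLE.cc_nat B (6 * m)).2 hB
  have e2 : DegLE (2 : RatFunc k) 0 := by exact_mod_cast DegLE.natCast (k := k) 2
  have e3 : DegLE (3 : RatFunc k) 0 := by exact_mod_cast DegLE.natCast (k := k) 3
  obtain ⟨h1, h2, h3⟩ := hu
  unfold Cu.norm
  refine DegLE.sub (DegLE.add (DegLE.add (DegLE.add (DegLE.sub (DegLE.add (DegLE.sub ?_ ?_) ?_)
    ?_) ?_) ?_) ?_) ?_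
  · exact degLE_cube h1 le_rfl
  · exact degLE_mul hb (degLE_cube h2 le_rfl) (by linarith)
  · exact degLE_mul (degLE_sq hb le_rfl) (degLE_cube h3 le_rfl) (by linarith)
  · exact degLE_mul (degLE_mul (degLE_mul e2 ha le_rfl) (degLE_sq h1 le_rfl) le_rfl) h3
      (by linarith)
  · exact degLE_mul (degLE_mul (degLE_sq ha le_rfl) h1 le_rfl) (degLE_sq h3 le_rfl) (by linarith)
  · exact degLE_mul (degLE_mul ha h1 le_rfl) (degLE_sq h2 le_rfl) (by linarith)
  · exact degLE_mul (degLE_mul (degLE_mul (degLE_mul e3 hb le_rfl) h1 le_rfl) h2 le_rfl) h3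
      (by linarith)
  · exact degLE_mul (degLE_mul (degLE_mul ha hb le_rfl) h2 le_rfl) (degLE_sq h3 le_rfl)
      (by linarith)

end cu

end Pool.Agent.BSDP
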