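import Pool.Agent.Lib.BSDP.Def

/-!
Module A.Field of MP_48b749_nt (positive proportion). `Cu A B` over a field `F` in which
`X ^ 3 + A X + B` has no root.

PROOF of `norm_ne_zero`. Let `φ = X ^ 3 + C A * X + C B : F[X]`, irreducible: degree `3` and no root
(`Polynomial.irreducible_of_degree_le_three_of_not_isRoot` or
`Polynomial.Monic.irreducible_iff_roots_eq_zero_of_degree_le_three`). `g = C u.x + C u.y * X +
C u.z * X ^ 2` is nonzero of degree `≤ 2`, so `φ ∤ g` and `IsCoprime φ g`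
(`Irreducible.coprime_iff_not_dvd`): `p φ + q g = 1`. Apply the ring homomorphism
`aeval (Cu.th A B) : F[X] → Cu A B`: it kills `φ` (`θ ^ 3 + A θ + B = 0`, ext and ring) and sends
`g` to `u`; so `v * u = 1` with `v = aeval θ q`, and `norm v * norm u = 1` (`Cu.norm_mul`).
Alternatively: if `norm u = 0` and `u ≠ 0` find a root by hand.
`mul_ne`: norms. `exists_inv`: `u * (norm u)⁻¹ • adj u = 1` by `Cu.mul_adj`.
`isSquare_div`: if `u = v * κ * κ` etc., elementary.
`ev_mul`: the value at a root is multiplicative: linear_combination with the root equation.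
`norm_ev`: `norm u = ev r u * (…)`: with `h (θ) = θ ^ 2 + r θ + (r ^ 2 + A)`; the cofactor is the
norm from the quadratic algebra: `N' = x'^2 - r x' y' + (r^2 + A) y'^2` where `u = x' + y' θ` modulo
`h`: `x' = u.x - (r ^ 2 + A) u.z`, `y' = u.y - r u.z`; check by `linear_combination` with
`r ^ 3 + A r + B = 0` (replace `B` by `- r ^ 3 - A r`, `subst`, `ring`).
-/

set_option autoImplicit false

open Polynomial

namespace Pool.Agent.BSDP

section field

variable {F : Type} [Field F] {A B : F}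

private theorem field_th3 : Cu.th A B ^ 3 + algebraMap F (Cu A B) A * Cu.th A B + algebraMap F (Cu A B) B = 0 := by
  rw [pow_succ, pow_two]
  ext <;> simp [Cu.mul_x, Cu.mul_y, Cu.mul_z]

theorem norm_ne_zero (h : ∀ x : F, x ^ 3 + A * x + B ≠ 0) {u : Cu A B} (hu : u ≠ 0) :
    u.norm ≠ 0 := by
  have hdeg : (X ^ 3 + C A * X + C B : F[X]).natDegree = 3 := by
    compute_degree!
  have hφ0 : (X ^ 3 + C A * X + C B : F[X]) ≠ 0 := by
    intro h0
    rw [h0, natDegree_zero] at hdeg
    exact absurd hdeg (by norm_num)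
  have hirr : Irreducible (X ^ 3 + C A * X + C B : F[X]) := by
    rw [irreducible_iff_roots_eq_zero_of_degree_le_three (by rw [hdeg]; norm_num) (by rw [hdeg])]
    rw [Multiset.eq_zero_iff_forall_notMem]
    intro x hx
    rw [mem_roots hφ0, IsRoot.def] at hx
    simp only [eval_add, eval_mul, eval_pow, eval_X, eval_C] at hx
    exact h x hx
  have hg0 : (C u.x + C u.y * X + C u.z * X ^ 2 : F[X]) ≠ 0 := by
    intro h0
    apply hu
    have e0 := congrArg (fun f : F[X] => f.coeff 0) h0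
    have e1 := congrArg (fun f : F[X] => f.coeff 1) h0
    have e2 := congrArg (fun f : F[X] => f.coeff 2) h0
    simp [coeff_X, coeff_C, coeff_X_pow] at e0 e1 e2
    ext
    · exact e0
    · exact e1
    · exact e2
  have hgd : (C u.x + C u.y * X + C u.z * X ^ 2 : F[X]).natDegree ≤ 2 := by
    compute_degree
  have hnd : ¬ (X ^ 3 + C A * X + C B : F[X]) ∣ (C u.x + C u.y * X + C u.z * X ^ 2 : F[X]) := by
    intro hd
    have := natDegree_le_of_dvd hd hg0
    rw [hdeg] at this
    omega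
  obtain ⟨p, q, hpq⟩ := hirr.coprime_iff_not_dvd.mpr hnd
  have h1 := congrArg (aeval (Cu.th A B)) hpq
  rw [map_add, map_mul, map_mul, map_one] at h1
  have h2 : aeval (Cu.th A B) (X ^ 3 + C A * X + C B : F[X]) = 0 := by
    rw [map_add, map_add, map_mul, map_pow, aeval_X, aeval_C, aeval_C]
    exact field_th3
  have h3 : aeval (Cu.th A B) (C u.x + C u.y * X + C u.z * X ^ 2 : F[X]) = u := by
    rw [map_add, map_add, map_mul, map_mul, map_pow, aeval_X, aeval_C, aeval_C, aeval_C, pow_two]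
    ext <;> simp [Cu.mul_x, Cu.mul_y, Cu.mul_z]
  rw [h2, h3, mul_zero, zero_add] at h1
  have h4 := congrArg Cu.norm h1
  rw [Cu.norm_mul, Cu.norm_one] at h4
  exact right_ne_zero_of_mul_eq_one h4

theorem exists_inv {u : Cu A B} (hu : u.norm ≠ 0) : ∃ v : Cu A B, u * v = 1 ∧ v.norm ≠ 0 := by
  have h1 : u * (algebraMap F (Cu A B) u.norm⁻¹ * u.adj) = 1 := by
    have h2 := Cu.mul_adj u
    rw [mul_left_comm, h2, ← map_mul, inv_mul_cancel₀ hu, map_one]
  refine ⟨_, h1, ?_⟩
  have h4 := congrArg Cu.norm h1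
  rw [Cu.norm_mul, Cu.norm_one] at h4
  exact right_ne_zero_of_mul_eq_one h4

/-- `γ * s = κ ^ 2` with `norm s ≠ 0` means `γ = s * (κ / s) ^ 2` -/
theorem eq_mul_sq {γ s κ : Cu A B} (hs : s.norm ≠ 0) (h : γ * s = κ * κ) :
    ∃ ρ : Cu A B, γ = s * ρ * ρ := by
  obtain ⟨v, hv, -⟩ := exists_inv hs
  refine ⟨κ * v, ?_⟩
  have h1 : s * (κ * v) * (κ * v) = (s * v) * (κ * κ) * v := by ring
  have h2 : γ * s * v = γ * (s * v) := by ring
  rw [h1, ← h, hv, one_mul, h2, hv, mul_one]

theorem norm_square {γ κ : Cu A B} (h : γ = κ * κ) : γ.norm = κ.norm ^ 2 := by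
  rw [h, Cu.norm_mul, pow_two]

end field

section ring

variable {S : Type} [CommRing S] {A B : S}

theorem ev_mul {r : S} (hr : r ^ 3 + A * r + B = 0) (u v : Cu A B) :
    (u * v).ev r = u.ev r * v.ev r := by
  simp only [Cu.ev, Cu.mul_x, Cu.mul_y, Cu.mul_z]
  linear_combination (-(u.y * v.z + u.z * v.y) - u.z * v.z * r) * hr

theorem ev_lin (r s d : S) : (Cu.lin A B s d).ev r = s - d * r := by
  simp only [Cu.ev, Cu.lin]
  ring

/-- the norm is the product of the value at a root and the norm from the quadratic factor -/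
theorem norm_ev {r : S} (hr : r ^ 3 + A * r + B = 0) (u : Cu A B) :
    u.norm = u.ev r * ((u.x - (r ^ 2 + A) * u.z) ^ 2 -
      r * (u.x - (r ^ 2 + A) * u.z) * (u.y - r * u.z) + (r ^ 2 + A) * (u.y - r * u.z) ^ 2) := by
  obtain rfl : B = -r ^ 3 - A * r := by linear_combination hr
  simp only [Cu.ev, Cu.norm]
  ring

/-- `h (θ) = θ ^ 2 + r θ + (r ^ 2 + A)` is an eigenvector of all elements -/
theorem mul_hh {r : S} (hr : r ^ 3 + A * r + B = 0) (u : Cu A B) :
    u * ⟨r ^ 2 + A, r, 1⟩ = u.ev r • ⟨r ^ 2 + A, r, 1⟩ := by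
  obtain rfl : B = -r ^ 3 - A * r := by linear_combination hr
  ext
  · simp only [Cu.ev, Cu.mul_x, Cu.smul_x]
    ring
  · simp only [Cu.ev, Cu.mul_y, Cu.smul_y]
    ring
  · simp only [Cu.ev, Cu.mul_z, Cu.smul_z]
    ring

end ring

end Pool.Agent.BSDP
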