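import Pool.Agent.Lib.BSDP.Def

/-!
Module A.Gram of MP_48b749_nt (positive proportion). Elementary identities for Gram matrices.

PROOFS. `coord_chb`, `coord_std`, `chb_std`: compute entries (`ext i j; fin_cases i <;> fin_cases j`,
`Matrix.mul_apply`, `Fin.sum_univ_three`). `gram1_chb`, `gram2_chb`: bilinearity: entries
`(γ * (Σ_k M i k • b k) * (Σ_l M j l • b l)).z = Σ M i k M j l (γ * b k * b l).z`; expand with
`Cu.mul_z`, `Cu.add_*`, `Cu.smul_*` and `ring` (do it for general `i j`, not by cases: put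
`b 0 = ⟨x0,y0,z0⟩` etc.). `gram_scale1/2`: associativity and commutativity in `Cu A B`.
`gram_std1`: `gram1 γ (std A B)` has determinant `- norm γ` (explicit 3x3, `Matrix.det_fin_three`,
`ring`); then `det_gram1`: `b = chb (coord b) (std A B)`, `gram1_chb`, `det_mul`, `det_transpose`.
`gram2_std`: `c₁ (ν) = c₂ (θ ν)` and `θ e_i = Σ_j thMat i j e_j`, entrywise `ring`.
`gram2_eq`: from `gram2_std`, `gram1_chb`, `gram2_chb` with `P = coord b`, `P⁻¹ P = 1`.
-/

set_option autoImplicit false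

open Polynomial

namespace Pool.Agent.BSDP

section ring

variable {S : Type} [CommRing S] {A B : S}

theorem gram1_symm (γ : Cu A B) (b : Fin 3 → Cu A B) : (gram1 γ b).IsSymm := by
  ext i j
  show (γ * b j * b i).z = (γ * b i * b j).z
  rw [mul_right_comm]

theorem gram2_symm (γ : Cu A B) (b : Fin 3 → Cu A B) : (gram2 γ b).IsSymm := by
  ext i j
  show (γ * b j * b i).y = (γ * b i * b j).y
  rw [mul_right_comm]

theorem coord_std : coord (std A B) = 1 := by
  ext i j
  fin_cases i <;> fin_cases j <;> rfl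

theorem coord_chb (M : Matrix (Fin 3) (Fin 3) S) (b : Fin 3 → Cu A B) :
    coord (chb M b) = M * coord b := by
  ext i j
  fin_cases i <;> fin_cases j <;>
    simp [coord, chb, Matrix.mul_apply, Fin.sum_univ_three]

theorem chb_std (b : Fin 3 → Cu A B) : chb (coord b) (std A B) = b := by
  funext i
  fin_cases i <;> ext <;> simp [chb, coord, std]

theorem chb_chb (M N : Matrix (Fin 3) (Fin 3) S) (b : Fin 3 → Cu A B) :
    chb M (chb N b) = chb (M * N) b := by
  funext i
  ext <;> simp only [chb, Matrix.mul_apply, Fin.sum_univ_three, Cu.add_x, Cu.add_y, Cu.add_z,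
    Cu.smul_x, Cu.smul_y, Cu.smul_z] <;> ring

theorem chb_one (b : Fin 3 → Cu A B) : chb 1 b = b := by
  have h := chb_chb 1 (coord b) (std A B)
  rw [one_mul, chb_std] at h
  exact h

private theorem gr_add_mul (γ : Cu A B) (x y z : S) (b : Fin 3 → Cu A B) (w : Cu A B) :
    γ * (x • b 0 + y • b 1 + z • b 2) * w =
      x • (γ * b 0 * w) + y • (γ * b 1 * w) + z • (γ * b 2 * w) := by
  simp only [mul_add, add_mul, mul_smul_comm, smul_mul_assoc]

private theorem gr_mul_add (γ : Cu A B) (x y z : S) (b : Fin 3 → Cu A B) :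
    γ * (x • b 0 + y • b 1 + z • b 2) =
      x • (γ * b 0) + y • (γ * b 1) + z • (γ * b 2) := by
  simp only [mul_add, mul_smul_comm]

theorem gram1_chb (γ : Cu A B) (M : Matrix (Fin 3) (Fin 3) S) (b : Fin 3 → Cu A B) :
    gram1 γ (chb M b) = M * gram1 γ b * M.transpose := by
  ext i j
  have h1 : gram1 γ (chb M b) i j = (γ * (M i 0 • b 0 + M i 1 • b 1 + M i 2 • b 2) *
      (M j 0 • b 0 + M j 1 • b 1 + M j 2 • b 2)).z := rfl
  rw [h1, gr_add_mul, gr_mul_add, gr_mul_add, gr_mul_add]
  simp only [Matrix.mul_apply, Fin.sum_univ_three, Matrix.transpose_apply, Cu.add_z, Cu.smul_z]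
  simp only [gram1, Matrix.of_apply]
  ring

theorem gram2_chb (γ : Cu A B) (M : Matrix (Fin 3) (Fin 3) S) (b : Fin 3 → Cu A B) :
    gram2 γ (chb M b) = M * gram2 γ b * M.transpose := by
  ext i j
  have h1 : gram2 γ (chb M b) i j = (γ * (M i 0 • b 0 + M i 1 • b 1 + M i 2 • b 2) *
      (M j 0 • b 0 + M j 1 • b 1 + M j 2 • b 2)).y := rfl
  rw [h1, gr_add_mul, gr_mul_add, gr_mul_add, gr_mul_add]
  simp only [Matrix.mul_apply, Fin.sum_univ_three, Matrix.transpose_apply, Cu.add_y, Cu.smul_y]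
  simp only [gram2, Matrix.of_apply]
  ring

theorem gram_scale1 (γ κ : Cu A B) (b : Fin 3 → Cu A B) :
    gram1 (γ * κ * κ) b = gram1 γ (fun i => κ * b i) := by
  ext i j
  show (γ * κ * κ * b i * b j).z = (γ * (κ * b i) * (κ * b j)).z
  have h : γ * κ * κ * b i * b j = γ * (κ * b i) * (κ * b j) := by ring
  rw [h]

theorem gram_scale2 (γ κ : Cu A B) (b : Fin 3 → Cu A B) :
    gram2 (γ * κ * κ) b = gram2 γ (fun i => κ * b i) := by
  ext i j
  show (γ * κ * κ * b i * b j).y = (γ * (κ * b i) * (κ * b j)).y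
  have h : γ * κ * κ * b i * b j = γ * (κ * b i) * (κ * b j) := by ring
  rw [h]

theorem det_gram1_std (γ : Cu A B) : (gram1 γ (std A B)).det = -γ.norm := by
  rw [Matrix.det_fin_three]
  simp only [gram1, std, Matrix.of_apply, Matrix.cons_val_zero, Matrix.cons_val_one,
    Matrix.cons_val, Cu.mul_x, Cu.mul_y, Cu.mul_z, Cu.norm]
  ring

theorem det_gram1 (γ : Cu A B) (b : Fin 3 → Cu A B) :
    (gram1 γ b).det = -(γ.norm * (coord b).det ^ 2) := by
  have h := gram1_chb γ (coord b) (std A B)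
  rw [chb_std] at h
  rw [h, Matrix.det_mul, Matrix.det_mul, Matrix.det_transpose, det_gram1_std]
  ring

/-- The matrix of the multiplication by `θ` in the basis `1, θ, θ ^ 2`. -/
def thMat (A B : S) : Matrix (Fin 3) (Fin 3) S := !![0, 1, 0; 0, 0, 1; -B, -A, 0]

theorem trace_thMat : (thMat A B).trace = 0 := by
  rw [Matrix.trace_fin_three]
  simp [thMat]

theorem trace_thMat_sq : (thMat A B * thMat A B).trace = -2 * A := by
  rw [Matrix.trace_fin_three]
  simp [thMat, Matrix.mul_apply, Fin.sum_univ_three]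
  ring

theorem det_thMat : (thMat A B).det = -B := by
  rw [Matrix.det_fin_three]
  simp [thMat]

private theorem gr_th_z (u : Cu A B) : (Cu.th A B * u).z = u.y := by
  rw [Cu.mul_z]
  simp

private theorem gr_th_std (i : Fin 3) :
    Cu.th A B * std A B i = chb (thMat A B) (std A B) i := by
  fin_cases i <;> ext <;> simp [chb, thMat, std, Cu.mul_x, Cu.mul_y, Cu.mul_z]

/-- multiplication by `θ` in a basis: `θ b_i = Σ_j M i j b_j` -/
private theorem gr_of_th (γ : Cu A B) (b : Fin 3 → Cu A B) (M : Matrix (Fin 3) (Fin 3) S)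
    (h : ∀ i, Cu.th A B * b i = chb M b i) : gram2 γ b = M * gram1 γ b := by
  ext i j
  have h1 : gram2 γ b i j = (γ * (M i 0 • b 0 + M i 1 • b 1 + M i 2 • b 2) * b j).z := by
    have h2 : γ * (M i 0 • b 0 + M i 1 • b 1 + M i 2 • b 2) * b j =
        Cu.th A B * (γ * b i * b j) := by
      have h3 : M i 0 • b 0 + M i 1 • b 1 + M i 2 • b 2 = Cu.th A B * b i := (h i).symm
      rw [h3]
      ring
    rw [h2, gr_th_z]
    rfl
  rw [h1, gr_add_mul]
  simp only [Matrix.mul_apply, Fin.sum_univ_three, Cu.add_z, Cu.smul_z]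
  simp only [gram1, Matrix.of_apply]

theorem gram2_std (γ : Cu A B) : gram2 γ (std A B) = thMat A B * gram1 γ (std A B) :=
  gr_of_th γ _ _ gr_th_std

/-- multiplication by `θ` in a basis: `θ b_i = Σ_j M i j b_j` -/
theorem gram2_of_th (γ : Cu A B) (b : Fin 3 → Cu A B) (M : Matrix (Fin 3) (Fin 3) S)
    (h : ∀ i, Cu.th A B * b i = chb M b i) : gram2 γ b = M * gram1 γ b :=
  gr_of_th γ b M h

end ring

section field

variable {F : Type} [Field F] {A B : F}

/-- `M` is the matrix of `θ` in the basis `b` -/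
theorem exists_th (b : Fin 3 → Cu A B) (hb : (coord b).det ≠ 0) :
    (∀ i, Cu.th A B * b i = chb (coord b * thMat A B * (coord b)⁻¹) b i) := by
  intro i
  have hu : IsUnit (coord b).det := isUnit_iff_ne_zero.2 hb
  have h1 : chb (coord b)⁻¹ b = std A B := by
    have h2 : chb (coord b)⁻¹ (chb (coord b) (std A B)) = std A B := by
      rw [chb_chb, Matrix.nonsing_inv_mul _ hu, chb_one]
    rwa [chb_std] at h2
  rw [← chb_chb, h1, ← chb_chb]
  have h3 : Cu.th A B * chb (coord b) (std A B) i =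
      chb (coord b) (chb (thMat A B) (std A B)) i := by
    have h4 : chb (coord b) (std A B) i = coord b i 0 • std A B 0 + coord b i 1 • std A B 1 +
      coord b i 2 • std A B 2 := rfl
    rw [h4, gr_mul_add, gr_th_std, gr_th_std, gr_th_std]
    rfl
  rw [chb_std] at h3
  exact h3

theorem gram2_eq (γ : Cu A B) (b : Fin 3 → Cu A B) (hb : (coord b).det ≠ 0) :
    gram2 γ b = coord b * thMat A B * (coord b)⁻¹ * gram1 γ b :=
  gram2_of_th γ b _ (exists_th b hb)

private theorem gr_mem {R : Subring F} {M N : Matrix (Fin 3) (Fin 3) F} (hM : ∀ i j, M i j ∈ R)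
    (hN : ∀ i j, N i j ∈ R) (i j : Fin 3) : (M * N) i j ∈ R := by
  rw [Matrix.mul_apply]
  exact sum_mem fun k _ => mul_mem (hM i k) (hN k j)

/-- A good basis can be changed by an invertible integral matrix. -/
theorem Good.chb {R : Subring F} {γ : Cu A B} {b : Fin 3 → Cu A B} (h : Good R γ b)
    (M : Matrix (Fin 3) (Fin 3) F) (hM : ∀ i j, M i j ∈ R) (hu : ∃ u ∈ R, u * M.det = 1) :
    Good R γ (BSDP.chb M b) := by
  refine ⟨?_, ?_, ?_⟩
  · rw [gram1_chb]
    exact gr_mem (gr_mem hM h.g1) fun i j => hM j i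
  · rw [gram2_chb]
    exact gr_mem (gr_mem hM h.g2) fun i j => hM j i
  · obtain ⟨u, hu, hu1⟩ := hu
    obtain ⟨v, hv, hv1⟩ := h.unit
    refine ⟨u * v * u, mul_mem (mul_mem hu hv) hu, ?_⟩
    rw [gram1_chb, Matrix.det_mul, Matrix.det_mul, Matrix.det_transpose]
    have h2 : u * v * u * (M.det * (gram1 γ b).det * M.det) =
        (u * M.det) * (v * (gram1 γ b).det) * (u * M.det) := by ring
    rw [h2, hu1, hv1]
    ring

/-- A good basis for `γ κ ^ 2` gives one for `γ`. -/
theorem Good.of_scale {R : Subring F} {γ κ : Cu A B} {b : Fin 3 → Cu A B}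
    (h : Good R (γ * κ * κ) b) : Good R γ (fun i => κ * b i) := by
  refine ⟨?_, ?_, ?_⟩
  · rw [← gram_scale1]
    exact h.g1
  · rw [← gram_scale2]
    exact h.g2
  · rw [← gram_scale1]
    exact h.unit

end field

end Pool.Agent.BSDP
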