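import Pool.Agent.Lib.BSDP.A.Gram

/-!
Module A.Quin of MP_48b749_nt (positive proportion). Normal bases and quintuples.

PROOFS. Let `gram1 γ b = G0`. Its determinant is `-1` (`det_gram1`), so `norm γ ≠ 0` and
`det (coord b) ≠ 0`: `normal_ne`. By `gram2_eq`, `gram2 γ b = M * G0` with
`M = P * thMat * P⁻¹`, `P = coord b`, hence `gram2 γ b * G0 = M` (`G0 * G0 = 1`). So
`trace (gram2 γ b * G0) = trace (thMat) = 0` (`Matrix.trace_mul_comm` / conjugation), i.e.
`g 0 2 + g 1 1 + g 2 0 = 0` for `g = gram2 γ b`, which with the symmetry `gram2_symm` gives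
`exists_quin` (`g 1 1 = - 2 g 0 2`). `invA`: for `N = t.mat * G0 = M`,
`trace (N * N) = trace (thMat * thMat) = - 2 A`, and explicitly `trace (N * N) = - 2 * t.invA`
(`ring`); cancel `2`. `invB`: `det (t.mat) * det G0 = det M = - B`, `det G0 = -1`,
`det t.mat = t.invB` (`Matrix.det_fin_three`, `ring`).
-/

set_option autoImplicit false

open Polynomial

namespace Pool.Agent.BSDP

theorem G0_mul_G0 (S : Type) [CommRing S] : G0 S * G0 S = 1 := by
  ext i j
  fin_cases i <;> fin_cases j <;> simp [G0, Matrix.mul_apply, Fin.sum_univ_three]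

theorem det_G0 (S : Type) [CommRing S] : (G0 S).det = -1 := by
  rw [Matrix.det_fin_three]
  simp [G0]

variable {F : Type} [Field F] {A B : F}

theorem normal_ne {γ : Cu A B} {b : Fin 3 → Cu A B} (h : gram1 γ b = G0 F) :
    γ.norm ≠ 0 ∧ (coord b).det ≠ 0 := by
  have h1 := det_gram1 γ b
  rw [h, det_G0] at h1
  have h2 : γ.norm * (coord b).det ^ 2 = 1 := by
    have := neg_injective h1
    exact this.symm
  constructor
  · intro h0
    rw [h0, zero_mul] at h2
    exact zero_ne_one h2
  · intro h0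
    rw [h0] at h2
    simp at h2

private theorem gram2_mul_G0 {γ : Cu A B} {b : Fin 3 → Cu A B} (h : gram1 γ b = G0 F) :
    gram2 γ b * G0 F = coord b * thMat A B * (coord b)⁻¹ := by
  rw [gram2_eq γ b (normal_ne h).2, h, Matrix.mul_assoc, G0_mul_G0, Matrix.mul_one]

private theorem inv_mul_coord {γ : Cu A B} {b : Fin 3 → Cu A B} (h : gram1 γ b = G0 F) :
    (coord b)⁻¹ * coord b = 1 :=
  Matrix.nonsing_inv_mul _ (isUnit_iff_ne_zero.2 (normal_ne h).2)

private theorem trace_conj {γ : Cu A B} {b : Fin 3 → Cu A B} (h : gram1 γ b = G0 F)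
    (M : Matrix (Fin 3) (Fin 3) F) : (coord b * M * (coord b)⁻¹).trace = M.trace := by
  rw [Matrix.trace_mul_comm, ← Matrix.mul_assoc, inv_mul_coord h, Matrix.one_mul]

theorem exists_quin {γ : Cu A B} {b : Fin 3 → Cu A B} (h : gram1 γ b = G0 F) :
    gram2 γ b = Quin.mat ⟨gram2 γ b 0 0, gram2 γ b 0 1, gram2 γ b 0 2, gram2 γ b 1 2,
      gram2 γ b 2 2⟩ := by
  have h1 : (gram2 γ b * G0 F).trace = 0 := by
    rw [gram2_mul_G0 h, trace_conj h, trace_thMat]
  have h2 : ∀ i j, gram2 γ b i j = gram2 γ b j i := fun i j => (gram2_symm γ b).apply j i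
  have h3 : gram2 γ b 0 2 + gram2 γ b 1 1 + gram2 γ b 2 0 = 0 := by
    rw [← h1]
    simp [Matrix.trace, Matrix.diag, Fin.sum_univ_three, Matrix.mul_apply, G0]
  rw [h2 2 0] at h3
  have h4 : gram2 γ b 1 1 = -2 * gram2 γ b 0 2 := by linear_combination h3
  ext i j
  fin_cases i <;> fin_cases j <;> simp [Quin.mat]
  · exact h2 1 0
  · rw [h4]; ring
  · exact h2 2 0
  · exact h2 2 1

private theorem normal_mat {γ : Cu A B} {b : Fin 3 → Cu A B} {t : Quin F} (h : Normal γ b t) :
    t.mat * G0 F = coord b * thMat A B * (coord b)⁻¹ := by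
  rw [← h.g2]
  exact gram2_mul_G0 h.g1

theorem Normal.invA (h2 : (2 : F) ≠ 0) {γ : Cu A B} {b : Fin 3 → Cu A B} {t : Quin F}
    (h : Normal γ b t) : t.invA = A := by
  have h1 : (t.mat * G0 F * (t.mat * G0 F)).trace = -2 * A := by
    rw [← trace_thMat_sq (A := A) (B := B), ← trace_conj h.g1 (thMat A B * thMat A B),
      normal_mat h]
    congr 1
    have h3 := inv_mul_coord h.g1
    calc coord b * thMat A B * (coord b)⁻¹ * (coord b * thMat A B * (coord b)⁻¹)
        = coord b * thMat A B * ((coord b)⁻¹ * coord b) * thMat A B * (coord b)⁻¹ := by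
          simp only [Matrix.mul_assoc]
      _ = _ := by rw [h3, Matrix.mul_one]; simp only [Matrix.mul_assoc]
  have h3 : (t.mat * G0 F * (t.mat * G0 F)).trace = -2 * t.invA := by
    simp [Matrix.trace, Matrix.diag, Fin.sum_univ_three, Matrix.mul_apply, G0, Quin.mat, Quin.invA]
    ring
  rw [h3] at h1
  exact mul_left_cancel₀ (neg_ne_zero.2 h2) h1

theorem Normal.invB {γ : Cu A B} {b : Fin 3 → Cu A B} {t : Quin F}
    (h : Normal γ b t) : t.invB = B := by
  have h1 : (t.mat * G0 F).det = -B := by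
    rw [normal_mat h, Matrix.det_mul, Matrix.det_mul, det_thMat]
    have h3 : (coord b).det * ((coord b)⁻¹).det = 1 := by
      rw [← Matrix.det_mul, Matrix.mul_nonsing_inv _ (isUnit_iff_ne_zero.2 (normal_ne h.g1).2),
        Matrix.det_one]
    linear_combination (-B) * h3
  rw [Matrix.det_mul, det_G0] at h1
  have h3 : t.mat.det = t.invB := by
    rw [Matrix.det_fin_three]
    simp [Quin.mat, Quin.invB]
    ring
  rw [h3] at h1
  linear_combination -h1

end Pool.Agent.BSDP
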